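import Pool.Agent.H.MP_50639e_co.A

set_option autoImplicit false

namespace Pool.Agent.H.MP_7a0182_co

open Pool.Agent.H.MP_50639e_co

def LT : ℕ := nat_lit 0x4160c2483cd84b85845366e09133d70c5584a7e9ccb9c290149513d9dec6cc3f04ad6d854c941b6a7ee998149cd1d4b5f05df92c1c14002d1c87bd4cda3ac47d384c02babaddcd85c9a66f250efb6f7ba82af768666a242be09d656914253342c0e0063a6ff754ba303afc14e800051b486393dc7c356a9ff3778c76d9c49d3eac6e1cf5831f2c45d5e66b7e639d58861fa4f039a52de69d515977f30dc516f800a8fc95924de2a50f936739d159e0b34fc2729dc572c7ca4d8e87f053b95a313b0b8dc3e706fa5d45dc003eedd74c7ad1bad0f3b1fa3f1517f424500608a492b50443237e55e3badd7cf65ad1caaa68019037fb7c9d41e23db58dc56bceab8fb0818fb2e23ba7c4d613fe40782c90630b4580b0cebbb818733a8e7e8eb3f98691cfe309400208239ae1298087a1513cca51a52cc6be05b263b5dc84e8d5ebe86c01c7a90e7e6bf56f324af1dede954854477f294167b7dd17445bef3e500bf6da9fef1360e6c59e47a2c65cbd5cfb02a5272c92fa2003e32354649cd9d691c6287bb17bdc9127179bd05c0775bd5ac758f8bc44c0a442036bbb73b11b4ce3fd9d3476335cb70fec5da4c7f1dc80b315ae8c1a7d17e08c2f0008b060729b25266ab5ed0255d0d71870bee5bc2f284ef501bd737d13fb5fd6bb123a64ab405372e0048b239c381ebdd11f296fabab1e90d20356dc6b1dd2c5adb604b3b2c973a6fb8b84206641a7675ce2af5de839fdc89dfc6198e012d90e6cf3102d6a884348cf456a4a58e945a053456d7882b8fecc52ccd43f5233e81274804ad207f52b870c89003404a86202948040000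

/-- index of the lowest set bit (no property of it is used) -/
def low (S : ℕ) : ℕ :=
  Nat.mod (Nat.shiftRight LT (Nat.mul 9 (Nat.mod (Nat.xor S (Nat.land S (Nat.sub S 1))) 523))) 512

/-- test `f` on every set bit -/
noncomputable def iter (f : ℕ → Bool) (n : ℕ) : ℕ → Bool :=
  @Nat.rec (fun _ => ℕ → Bool) (fun S => Nat.beq S 0)
    (fun _ ih S => @Bool.rec (fun _ => Bool)
      ((fun a : ℕ => @Bool.rec (fun _ => Bool) false (ih (Nat.xor S (Nat.shiftLeft 1 a))) (f a))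
        (low S)) true (Nat.beq S 0)) n

def tb (S k : ℕ) : Bool := Nat.beq (Nat.mod (Nat.shiftRight S k) 2) 1

noncomputable def cls (S M : ℕ) : Bool :=
  iter (fun b => (fun P : ℕ =>
    iter (fun a => Nat.beq (Nat.land P (Nat.shiftRight S (Nat.mul 16 a))) P) 16 P)
    (Nat.xor M (Nat.land M (Nat.shiftRight S (Nat.add 256 (Nat.mul 16 b)))))) 16 M

noncomputable def leaf (S x : ℕ) : Bool :=
  (fun p q r : ℕ => and (and (cls S p) (cls S q))
    (and (cls S r) (cls S (Nat.xor 16383 (Nat.lor (Nat.lor p q) r)))))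
  (Nat.mod x 16384) (Nat.mod (Nat.div x 16384) 16384) (Nat.mod (Nat.div x 268435456) 16384)

def UU : ℕ := nat_lit 0x2000300038003c003e003f003f803fc03fe03ff03ff83ffc3ffe0000000000002000300038003c003e003f003f803fc03fe03ff03ff83ffc3ffe

noncomputable def lop (pt : ℕ → ℕ) (i S x : ℕ) : Bool :=
  (fun j π : ℕ => and (and (Nat.ble (Nat.succ j) i) (dis 14 π 49152))
    (iter (fun y => tb S (Nat.add (Nat.mul 256 (Nat.div y 256))
      (Nat.add (Nat.mul 16 (cg π (cg y 1))) (cg π (Nat.mod y 16))))) 200 (Nat.land (pt j) UU)))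
  (Nat.mod x 65536) (Nat.div x 65536)

def two (a b : ℕ) : ℕ :=
  Nat.lor (Nat.shiftLeft 1 (Nat.add (Nat.mul 16 a) b)) (Nat.shiftLeft 1 (Nat.add (Nat.mul 16 b) a))

noncomputable def run (pt : ℕ → ℕ) (i f : ℕ) : ℕ → ℕ → ℕ :=
  @Nat.rec (fun _ => ℕ → ℕ → ℕ) (fun _ _ => 0)
    (fun _ ih S s => (fun x0 : ℕ => (fun x : ℕ =>
      @Bool.rec (fun _ => ℕ)
        (@Bool.rec (fun _ => ℕ)
          (@Bool.rec (fun _ => ℕ) 0 (Nat.shiftRight s 74) (lop pt i S x))
          (@Bool.rec (fun _ => ℕ) 0 (Nat.shiftRight s 44) (leaf S x)) (Nat.beq (Nat.mod x0 4) 1))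
        ((fun m : ℕ => (fun r : ℕ => @Bool.rec (fun _ => ℕ)
          (ih (Nat.lor S (Nat.shiftLeft m 256)) r) 0 (Nat.beq r 0))
          (ih (Nat.lor S m) (Nat.shiftRight s 10))) (two (Nat.mod x 16) (cg x 1)))
        (Nat.beq (Nat.mod x0 4) 0)) (Nat.div x0 4))
      (Nat.mod s 18889465931478580854784)) f

noncomputable def chk (pt : ℕ → ℕ) (i s : ℕ) : Bool :=
  (fun q : ℕ => and (iter (fun y => tb q (Nat.add (Nat.mul 256 (Nat.div y 256))
      (Nat.add (Nat.mul 16 (Nat.mod y 16)) (cg y 1)))) 400 q)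
    (Nat.ble 1 (run pt i 200 q s))) (pt i)

noncomputable def all (pt : ℕ → ℕ) (l : List ℕ) : ℕ → Bool :=
  @List.rec ℕ (fun _ => ℕ → Bool) (fun _ => true)
    (fun s _ ih i => and (chk pt i s) (ih (Nat.succ i))) l

end Pool.Agent.H.MP_7a0182_co
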