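import Pool.Agent.H.MP_7a0182_co.Snd
import Pool.Agent.H.MP_7a0182_co.E0
import Pool.Agent.H.MP_7a0182_co.E1
import Pool.Agent.H.MP_7a0182_co.E2
import Pool.Agent.H.MP_7a0182_co.E3

set_option autoImplicit false

namespace Pool.Agent.H.MP_7a0182_co

open Pool.Agent.H.MP_50639e_co (look)

theorem root : Good (look TT 1453) := by
  have h0 : ∀ j < 0, Good (look TT j) := fun _ h => absurd h (by omega)
  have h1 := all_good' 20 e0_0 e0_0l rfl h0
  have h2 := all_good' 36 e0_1 e0_1l rfl h1
  have h3 := all_good' 52 e0_2 e0_2l rfl h2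
  have h4 := all_good' 75 e0_3 e0_3l rfl h3
  have h5 := all_good' 91 e0_4 e0_4l rfl h4
  have h6 := all_good' 108 e0_5 e0_5l rfl h5
  have h7 := all_good' 125 e0_6 e0_6l rfl h6
  have h8 := all_good' 142 e0_7 e0_7l rfl h7
  have h9 := all_good' 161 e0_8 e0_8l rfl h8
  have h10 := all_good' 180 e0_9 e0_9l rfl h9
  have h11 := all_good' 198 e0_10 e0_10l rfl h10
  have h12 := all_good' 219 e0_11 e0_11l rfl h11
  have h13 := all_good' 237 e0_12 e0_12l rfl h12
  have h14 := all_good' 258 e0_13 e0_13l rfl h13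
  have h15 := all_good' 274 e0_14 e0_14l rfl h14
  have h16 := all_good' 292 e0_15 e0_15l rfl h15
  have h17 := all_good' 308 e0_16 e0_16l rfl h16
  have h18 := all_good' 327 e0_17 e0_17l rfl h17
  have h19 := all_good' 340 e0_18 e0_18l rfl h18
  have h20 := all_good' 361 e1_0 e1_0l rfl h19
  have h21 := all_good' 374 e1_1 e1_1l rfl h20
  have h22 := all_good' 392 e1_2 e1_2l rfl h21
  have h23 := all_good' 413 e1_3 e1_3l rfl h22
  have h24 := all_good' 426 e1_4 e1_4l rfl h23
  have h25 := all_good' 441 e1_5 e1_5l rfl h24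
  have h26 := all_good' 464 e1_6 e1_6l rfl h25
  have h27 := all_good' 475 e1_7 e1_7l rfl h26
  have h28 := all_good' 493 e1_8 e1_8l rfl h27
  have h29 := all_good' 511 e1_9 e1_9l rfl h28
  have h30 := all_good' 532 e1_10 e1_10l rfl h29
  have h31 := all_good' 547 e1_11 e1_11l rfl h30
  have h32 := all_good' 563 e1_12 e1_12l rfl h31
  have h33 := all_good' 592 e1_13 e1_13l rfl h32
  have h34 := all_good' 614 e1_14 e1_14l rfl h33
  have h35 := all_good' 632 e1_15 e1_15l rfl h34
  have h36 := all_good' 655 e1_16 e1_16l rfl h35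
  have h37 := all_good' 678 e1_17 e1_17l rfl h36
  have h38 := all_good' 697 e1_18 e1_18l rfl h37
  have h39 := all_good' 719 e2_0 e2_0l rfl h38
  have h40 := all_good' 737 e2_1 e2_1l rfl h39
  have h41 := all_good' 757 e2_2 e2_2l rfl h40
  have h42 := all_good' 780 e2_3 e2_3l rfl h41
  have h43 := all_good' 800 e2_4 e2_4l rfl h42
  have h44 := all_good' 818 e2_5 e2_5l rfl h43
  have h45 := all_good' 838 e2_6 e2_6l rfl h44
  have h46 := all_good' 858 e2_7 e2_7l rfl h45
  have h47 := all_good' 878 e2_8 e2_8l rfl h46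
  have h48 := all_good' 898 e2_9 e2_9l rfl h47
  have h49 := all_good' 920 e2_10 e2_10l rfl h48
  have h50 := all_good' 943 e2_11 e2_11l rfl h49
  have h51 := all_good' 966 e2_12 e2_12l rfl h50
  have h52 := all_good' 986 e2_13 e2_13l rfl h51
  have h53 := all_good' 1005 e2_14 e2_14l rfl h52
  have h54 := all_good' 1023 e2_15 e2_15l rfl h53
  have h55 := all_good' 1046 e2_16 e2_16l rfl h54
  have h56 := all_good' 1064 e2_17 e2_17l rfl h55
  have h57 := all_good' 1077 e2_18 e2_18l rfl h56
  have h58 := all_good' 1096 e3_0 e3_0l rfl h57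
  have h59 := all_good' 1123 e3_1 e3_1l rfl h58
  have h60 := all_good' 1142 e3_2 e3_2l rfl h59
  have h61 := all_good' 1160 e3_3 e3_3l rfl h60
  have h62 := all_good' 1179 e3_4 e3_4l rfl h61
  have h63 := all_good' 1198 e3_5 e3_5l rfl h62
  have h64 := all_good' 1220 e3_6 e3_6l rfl h63
  have h65 := all_good' 1242 e3_7 e3_7l rfl h64
  have h66 := all_good' 1262 e3_8 e3_8l rfl h65
  have h67 := all_good' 1284 e3_9 e3_9l rfl h66
  have h68 := all_good' 1302 e3_10 e3_10l rfl h67
  have h69 := all_good' 1323 e3_11 e3_11l rfl h68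
  have h70 := all_good' 1345 e3_12 e3_12l rfl h69
  have h71 := all_good' 1368 e3_13 e3_13l rfl h70
  have h72 := all_good' 1390 e3_14 e3_14l rfl h71
  have h73 := all_good' 1405 e3_15 e3_15l rfl h72
  have h74 := all_good' 1423 e3_16 e3_16l rfl h73
  have h75 := all_good' 1440 e3_17 e3_17l rfl h74
  have h76 := all_good' 1454 e3_18 e3_18l rfl h75
  exact h76 1453 (by omega)

theorem not_valid {g : ℕ → ℕ → Prop} (V : Valid g) : False := by
  have e : ∀ b < 14, ∀ a < b, (look TT 1453).testBit (16 * a + b) = false ∧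
      (look TT 1453).testBit (256 + (16 * a + b)) = false := by decide +kernel
  refine root g V fun b hb a ab => ⟨fun t => ?_, fun t => ?_⟩
  · rw [(e b hb a ab).1] at t
    exact absurd t (by simp)
  · rw [(e b hb a ab).2] at t
    exact absurd t (by simp)

end Pool.Agent.H.MP_7a0182_co
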