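import Pool.Agent.H.MP_7a0182_co.Chk

set_option autoImplicit false

namespace Pool.Agent.H.MP_7a0182_co

open Pool.Agent.H.MP_50639e_co

theorem iter_spec (f : ℕ → Bool) : ∀ (n S : ℕ), iter f n S = true →
    ∀ a, S.testBit a = true → f a = true
  | 0, S, h, a, ha => by
    have e : iter f 0 S = Nat.beq S 0 := rfl
    rw [e, Nat.beq_eq] at h
    simp [h] at ha
  | n + 1, S, h, a, ha => by
    have e : iter f (n + 1) S = @Bool.rec (fun _ => Bool) (@Bool.rec (fun _ => Bool) false
      (iter f n (S ^^^ (1 <<< low S))) (f (low S))) true (Nat.beq S 0) := rfl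
    rw [e, brec, brec] at h
    split_ifs at h with h0 h1
    · rw [Nat.beq_eq] at h0
      simp [h0] at ha
    · by_cases c : low S = a
      · exact c ▸ h1
      · refine iter_spec f n _ h a ?_
        simp [Nat.testBit_xor, ha, Nat.one_shiftLeft, c]

theorem tb_eq (S k : ℕ) : tb S k = S.testBit k := by
  have e : tb S k = Nat.beq ((S >>> k) % 2) 1 := rfl
  rw [e, Nat.testBit_eq_decide_div_mod_eq, Nat.shiftRight_eq_div_pow, Bool.eq_iff_iff]
  simp

/-- no induced path on three vertices inside `p` -/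
def Free (g : ℕ → ℕ → Prop) (p : ℕ → Prop) : Prop :=
  ∀ a < 14, ∀ b < 14, ∀ d < 14, p a → p b → p d → a ≠ b → b ≠ d → a ≠ d → g a b → g b d → g a d

structure Valid (g : ℕ → ℕ → Prop) : Prop where
  sym : ∀ a < 14, ∀ b < 14, g a b → g b a
  bad : ∀ c : ℕ → ℕ, (∀ a, c a < 4) → (∀ k, Free g fun a => c a = k) → False

theorem Valid.comp {g : ℕ → ℕ → Prop} (V : Valid g) {π : ℕ → ℕ}
    (h1 : ∀ a < 14, π a < 14) (h2 : Set.InjOn π (Set.Iio 14)) :
    Valid fun a b => g (π a) (π b) where
  sym a ha b hb := V.sym _ (h1 a ha) _ (h1 b hb)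
  bad c hc H := by
    have sj : ∀ a < 14, ∃ x, x < 14 ∧ π x = a := fun a ha => by
      obtain ⟨x, hx, e⟩ := Finset.surj_on_of_inj_on_of_card_le (s := Finset.range 14)
        (t := Finset.range 14) (fun x _ => π x) (fun x hx => by simpa using h1 x (by simpa using hx))
        (fun x y hx hy e => h2 (by simpa using hx) (by simpa using hy) e) le_rfl a
        (by simpa using ha)
      exact ⟨x, by simpa using hx, e.symm⟩
    choose! σ s1 s2 using sj
    refine V.bad (fun a => c (σ a)) (fun _ => hc _) fun k a ha b hb d hd pa pb pd ab bd ad x y => ?_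
    have ne : ∀ u < 14, ∀ v < 14, u ≠ v → σ u ≠ σ v := fun u hu v hv uv e =>
      uv (by rw [← s2 u hu, ← s2 v hv, e])
    have := H k _ (s1 a ha) _ (s1 b hb) _ (s1 d hd) pa pb pd (ne a ha b hb ab) (ne b hb d hd bd)
      (ne a ha d hd ad)
    simp only [s2 a ha, s2 b hb, s2 d hd] at this
    exact this x y

def At (g : ℕ → ℕ → Prop) (S a b : ℕ) : Prop :=
  (S.testBit (16 * a + b) = true → g a b) ∧ (S.testBit (256 + (16 * a + b)) = true → ¬ g a b)

def Inv (g : ℕ → ℕ → Prop) (S : ℕ) : Prop := ∀ a < 14, ∀ b < 14, a ≠ b → At g S a b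

def Good (q : ℕ) : Prop := ∀ g, Valid g → (∀ b < 14, ∀ a < b, At g q a b) → False

variable {g : ℕ → ℕ → Prop} {S : ℕ}

theorem cls_spec (V : Valid g) (I : Inv g S) {M : ℕ} (h : cls S M = true) :
    Free g fun a => M.testBit a = true := by
  intro a ha b hb d hd pa pb pd ab bd ad x y
  have h1 : iter (fun a => Nat.beq ((M ^^^ (M &&& (S >>> (256 + 16 * b)))) &&& (S >>> (16 * a)))
    (M ^^^ (M &&& (S >>> (256 + 16 * b))))) 16 (M ^^^ (M &&& (S >>> (256 + 16 * b)))) = true :=
    iter_spec _ _ _ h b pb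
  have key : ∀ u < 14, M.testBit u = true → b ≠ u → g b u →
      (M ^^^ (M &&& (S >>> (256 + 16 * b)))).testBit u = true := fun u hu pu bu z => by
    have : S.testBit (256 + (16 * b + u)) = false := by
      by_contra c
      exact (I b hb u hu bu).2 (by simpa using c) z
    simp [Nat.testBit_xor, Nat.testBit_and, Nat.testBit_shiftRight, pu, Nat.add_assoc, this]
  have h2 := iter_spec _ _ _ h1 a (key a ha pa ab.symm (V.sym a ha b hb x))
  rw [Nat.beq_eq] at h2
  have h3 := key d hd pd bd y
  rw [← h2, Nat.testBit_and, Bool.and_eq_true, Nat.testBit_shiftRight] at h3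
  exact (I a ha d hd ad).1 h3.2

theorem leaf_spec (V : Valid g) (I : Inv g S) {x : ℕ} (h : leaf S x = true) : False := by
  obtain ⟨p, q, r, h⟩ : ∃ p q r, ((cls S p && cls S q) &&
    (cls S r && cls S (16383 ^^^ ((p ||| q) ||| r)))) = true := ⟨_, _, _, h⟩
  simp only [Bool.and_eq_true] at h
  obtain ⟨⟨h0, h1⟩, h2, h3⟩ := h
  have full : ∀ a < 14, Nat.testBit 16383 a = true := by decide
  refine V.bad (fun a => if p.testBit a then 0 else if q.testBit a then 1 else
    if r.testBit a then 2 else 3) (fun a => by split_ifs <;> omega) ?_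
  intro k a ha b hb d hd pa pb pd
  have key : ∀ u < 14, (if p.testBit u then 0 else if q.testBit u then 1 else
      if r.testBit u then 2 else 3) = k → (k = 0 ∧ p.testBit u = true) ∨
      (k = 1 ∧ q.testBit u = true) ∨ (k = 2 ∧ r.testBit u = true) ∨
      (k = 3 ∧ (16383 ^^^ ((p ||| q) ||| r)).testBit u = true) := fun u hu e => by
    split_ifs at e with c0 c1 c2
    · exact Or.inl ⟨e.symm, c0⟩
    · exact Or.inr (Or.inl ⟨e.symm, c1⟩)
    · exact Or.inr (Or.inr (Or.inl ⟨e.symm, c2⟩))
    · refine Or.inr (Or.inr (Or.inr ⟨e.symm, ?_⟩))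
      simp only [Nat.testBit_xor, Nat.testBit_or, full u hu, c0, c1, c2]
      rfl
  rcases key a ha pa with ⟨e, x⟩ | ⟨e, x⟩ | ⟨e, x⟩ | ⟨e, x⟩ <;>
    rcases key b hb pb with ⟨e', y⟩ | ⟨e', y⟩ | ⟨e', y⟩ | ⟨e', y⟩ <;> try omega
  all_goals rcases key d hd pd with ⟨e'', z⟩ | ⟨e'', z⟩ | ⟨e'', z⟩ | ⟨e'', z⟩ <;> try omega
  · exact cls_spec V I h0 a ha b hb d hd x y z
  · exact cls_spec V I h1 a ha b hb d hd x y z
  · exact cls_spec V I h2 a ha b hb d hd x y z
  · exact cls_spec V I h3 a ha b hb d hd x y z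

theorem cg_one (y : ℕ) : cg y 1 = y / 16 % 16 := by rw [← cg_zero, cg_div]

theorem lop_spec {pt : ℕ → ℕ} {i x : ℕ} (G : ∀ j < i, Good (pt j)) (V : Valid g) (I : Inv g S)
    (h : lop pt i S x = true) : False := by
  obtain ⟨j, π, h⟩ : ∃ j π, ((Nat.ble (j + 1) i && dis 14 π 49152) &&
    iter (fun y => tb S (256 * (y / 256) + (16 * cg π (cg y 1) + cg π (y % 16)))) 200
      (pt j &&& UU)) = true := ⟨_, _, h⟩
  simp only [Bool.and_eq_true, Nat.ble_eq] at h
  obtain ⟨⟨hj, hd⟩, hi⟩ := h
  have inj := dis_inj hd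
  have lt : ∀ a < 14, cg π a < 14 := fun a ha => by
    have h1 := (dis_spec _ _ _ hd a ha).1
    have h2 := cg_lt π a
    by_contra c
    have : cg π a = 14 ∨ cg π a = 15 := by omega
    rcases this with e | e <;> rw [e] at h1 <;> exact absurd h1 (by decide)
  have uu : ∀ b < 14, ∀ a < b, UU.testBit (16 * a + b) = true ∧
      UU.testBit (256 + (16 * a + b)) = true := by decide +kernel
  refine G j hj _ (V.comp lt inj) fun b hb a ab => ?_
  have ne : cg π a ≠ cg π b := fun e => by
    have := inj (show a < 14 by omega) hb e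
    omega
  have J := I _ (lt a (by omega)) _ (lt b hb) ne
  constructor
  · intro t
    have := iter_spec _ _ _ hi (16 * a + b) (by rw [Nat.testBit_and, t, (uu b hb a ab).1]; rfl)
    rw [tb_eq, cg_one, show (16 * a + b) / 256 = 0 by omega,
      show (16 * a + b) / 16 % 16 = a by omega, show (16 * a + b) % 16 = b by omega] at this
    exact J.1 (by simpa using this)
  · intro t
    have := iter_spec _ _ _ hi (256 + (16 * a + b))
      (by rw [Nat.testBit_and, t, (uu b hb a ab).2]; rfl)
    rw [tb_eq, cg_one, show (256 + (16 * a + b)) / 256 = 1 by omega,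
      show (256 + (16 * a + b)) / 16 % 16 = a by omega,
      show (256 + (16 * a + b)) % 16 = b by omega] at this
    exact J.2 (by simpa using this)

theorem two_bit {a b y : ℕ} (h : (two a b).testBit y = true) : y = 16 * a + b ∨ y = 16 * b + a := by
  have e : two a b = (1 <<< (16 * a + b)) ||| (1 <<< (16 * b + a)) := rfl
  simp only [e, Nat.one_shiftLeft, Nat.testBit_or, Nat.testBit_two_pow, Bool.or_eq_true,
    decide_eq_true_eq] at h
  omega

theorem run_spec {pt : ℕ → ℕ} {i : ℕ} (G : ∀ j < i, Good (pt j)) (V : Valid g) :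
    ∀ (f S s : ℕ), run pt i f S s ≠ 0 → Inv g S → False
  | 0, _, _, h, _ => h rfl
  | f + 1, S, s, h, I => by
    obtain ⟨x, t, e⟩ : ∃ x t, run pt i (f + 1) S s = @Bool.rec (fun _ => ℕ)
      (@Bool.rec (fun _ => ℕ) (@Bool.rec (fun _ => ℕ) 0 (s >>> 74) (lop pt i S x))
        (@Bool.rec (fun _ => ℕ) 0 (s >>> 44) (leaf S x)) (Nat.beq t 1))
      (@Bool.rec (fun _ => ℕ) (run pt i f (S ||| (two (x % 16) (cg x 1) <<< 256))
        (run pt i f (S ||| two (x % 16) (cg x 1)) (s >>> 10))) 0
        (Nat.beq (run pt i f (S ||| two (x % 16) (cg x 1)) (s >>> 10)) 0)) (Nat.beq t 0) :=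
      ⟨_, _, rfl⟩
    rw [e] at h
    simp only [brec] at h
    have ha : x % 16 < 16 := Nat.mod_lt _ (by norm_num)
    have hb := cg_lt x 1
    generalize x % 16 = a at *
    generalize cg x 1 = b at *
    split_ifs at h with h0 h1 h2 h3 h4
    · exact h rfl
    · by_cases c : g a b
      · refine run_spec G V f _ _ (fun z => h1 (by rw [z]; rfl)) fun u hu v hv uv => ⟨?_, ?_⟩
        · rw [Nat.testBit_or, Bool.or_eq_true]
          rintro (z | z)
          · exact (I u hu v hv uv).1 z
          · rcases two_bit z with w | w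
            · rw [show u = a by omega, show v = b by omega]
              exact c
            · obtain rfl : u = b := by omega
              obtain rfl : v = a := by omega
              exact V.sym _ hv _ hu c
        · rw [Nat.testBit_or, Bool.or_eq_true]
          rintro (z | z)
          · exact (I u hu v hv uv).2 z
          · have := two_bit z
            omega
      · refine run_spec G V f _ _ h fun u hu v hv uv => ⟨?_, ?_⟩
        · rw [Nat.testBit_or, Bool.or_eq_true, Nat.testBit_shiftLeft]
          rintro (z | z)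
          · exact (I u hu v hv uv).1 z
          · simp only [Bool.and_eq_true, decide_eq_true_eq] at z
            omega
        · rw [Nat.testBit_or, Bool.or_eq_true, Nat.testBit_shiftLeft]
          rintro (z | z)
          · exact (I u hu v hv uv).2 z
          · simp only [Bool.and_eq_true, decide_eq_true_eq] at z
            rcases two_bit z.2 with w | w
            · rw [show u = a by omega, show v = b by omega]
              exact c
            · obtain rfl : u = b := by omega
              obtain rfl : v = a := by omega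
              exact fun z => c (V.sym _ hu _ hv z)
    · exact leaf_spec V I h3
    · exact h rfl
    · exact lop_spec G V I h4
    · exact h rfl

theorem chk_good {pt : ℕ → ℕ} {i s : ℕ} (G : ∀ j < i, Good (pt j)) (h : chk pt i s = true) :
    Good (pt i) := by
  have e : chk pt i s = (iter (fun y => tb (pt i) (256 * (y / 256) + (16 * (y % 16) + cg y 1)))
    400 (pt i) && Nat.ble 1 (run pt i 200 (pt i) s)) := rfl
  rw [e, Bool.and_eq_true, Nat.ble_eq] at h
  intro g V H
  refine run_spec G V _ _ _ (Nat.one_le_iff_ne_zero.1 h.2) fun a ha b hb ab => ?_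
  rcases Nat.lt_or_gt_of_ne ab with c | c
  · exact H b hb a c
  have J := H a ha b c
  constructor
  · intro t
    have := iter_spec _ _ _ h.1 _ t
    rw [tb_eq, cg_one, show (16 * a + b) / 256 = 0 by omega,
      show (16 * a + b) / 16 % 16 = a by omega, show (16 * a + b) % 16 = b by omega] at this
    exact V.sym _ hb _ ha (J.1 (by simpa using this))
  · intro t z
    have := iter_spec _ _ _ h.1 _ t
    rw [tb_eq, cg_one, show (256 + (16 * a + b)) / 256 = 1 by omega,
      show (256 + (16 * a + b)) / 16 % 16 = a by omega,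
      show (256 + (16 * a + b)) % 16 = b by omega] at this
    exact J.2 (by simpa using this) (V.sym _ ha _ hb z)

theorem all_good {pt : ℕ → ℕ} : ∀ (l : List ℕ) (i : ℕ), all pt l i = true →
    (∀ j < i, Good (pt j)) → ∀ j < i + l.length, Good (pt j)
  | [], _, _, G => G
  | s :: l, i, h, G => by
    have e : all pt (s :: l) i = (chk pt i s && all pt l (i + 1)) := rfl
    rw [e, Bool.and_eq_true] at h
    have := all_good l (i + 1) h.2 fun j hj => by
      rcases Nat.lt_succ_iff_lt_or_eq.1 hj with hj | rfl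
      · exact G j hj
      · exact chk_good G h.1
    intro j hj
    exact this j (by simp at hj; omega)

theorem all_good' {pt : ℕ → ℕ} {l : List ℕ} {i n : ℕ} (m : ℕ) (h : all pt l i = true)
    (hl : l.length = n) (hm : m = i + n) (G : ∀ j < i, Good (pt j)) :
    ∀ j < m, Good (pt j) := by
  rw [hm, ← hl]
  exact all_good l i h G

theorem multi : ∀ (m : ℕ) (C : Finset ℕ) (f : ℕ → ℕ → ℕ), C.card < m →
    (∀ j < m, ∀ i ≤ j, f j i ∈ C) →
    (∀ j < m, ∀ k < m, j ≠ k → ∀ a ≤ j, ∀ b ≤ j, ∀ d ≤ k, a ≠ b → f j a = f j b → f j a ≠ f k d) →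
    False
  | 0, _, _, h, _, _ => absurd h (by omega)
  | m + 1, C, f, h, h1, h2 => by
    obtain ⟨a, ha, b, hb, ab, e⟩ := Finset.exists_ne_map_eq_of_card_lt_of_maps_to
      (s := Finset.range (m + 1)) (t := C) (f := f m) (by simpa using h)
      (fun a ha => h1 m (by omega) a (by simpa [Nat.lt_succ_iff] using ha))
    simp only [Finset.mem_range, Nat.lt_succ_iff] at ha hb
    have hm := h1 m (by omega) a ha
    have := Finset.card_erase_of_mem hm
    have := Finset.card_pos.2 ⟨_, hm⟩
    refine multi m (C.erase (f m a)) f (by omega) (fun j hj i hi => Finset.mem_erase.2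
      ⟨(h2 m (by omega) j (by omega) (by omega) a ha b hb i hi ab e).symm, h1 j (by omega) i hi⟩)
      fun j hj k hk => h2 j (by omega) k (by omega)

end Pool.Agent.H.MP_7a0182_co
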